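import Mathlib

set_option autoImplicit false
open Topology Filter Set

namespace H909R3.MP3dc4

universe u

/-- `x` returns to each of its neighbourhoods with bounded gaps. -/
def URecPt {X : Type u} [TopologicalSpace X] (f : X → X) (x : X) : Prop :=
  ∀ U ∈ 𝓝 x, ∃ N : ℕ, ∀ m : ℕ, ∃ n : ℕ, m ≤ n ∧ n ≤ m + N ∧ 1 ≤ n ∧ f^[n] x ∈ U

section compact

variable {P : Type u} [TopologicalSpace P] [CompactSpace P]

/-- minimal closed invariant subsets exist inside nonempty closed invariant sets. -/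
theorem exists_minimal (S : P → P) (C : Set P) (hC : IsClosed C) (hne : C.Nonempty)
    (hinv : MapsTo S C C) :
    ∃ W : Set P, IsClosed W ∧ W.Nonempty ∧ MapsTo S W W ∧ W ⊆ C ∧
      ∀ V : Set P, IsClosed V → V.Nonempty → MapsTo S V V → V ⊆ W → V = W := by
  have key := zorn_superset_nonempty
    {W : Set P | IsClosed W ∧ W.Nonempty ∧ MapsTo S W W} ?_ C ⟨hC, hne, hinv⟩
  · obtain ⟨W, hWC, hW⟩ := key
    refine ⟨W, hW.prop.1, hW.prop.2.1, hW.prop.2.2, hWC, ?_⟩
    intro V h1 h2 h3 h4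
    exact Subset.antisymm h4 (hW.le_of_le ⟨h1, h2, h3⟩ h4)
  · intro c hc hchain hcne
    refine ⟨⋂₀ c, ⟨isClosed_sInter (fun s hs => (hc hs).1), ?_, ?_⟩, fun s hs => sInter_subset_of_mem hs⟩
    · have : Nonempty c := hcne.to_subtype
      apply IsCompact.nonempty_sInter_of_directed_nonempty_isCompact_isClosed
      · intro a ha b hb
        rcases hchain.total ha hb with h | h
        · exact ⟨a, ha, Subset.rfl, h⟩
        · exact ⟨b, hb, h, Subset.rfl⟩
      · exact fun s hs => (hc hs).2.1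
      · exact fun s hs => (hc hs).1.isCompact
      · exact fun s hs => (hc hs).1
    · intro x hx s hs
      exact (hc hs).2.2 (hx s hs)

/-- in a minimal closed invariant set all orbits are dense. -/
theorem mem_closure_orbit {S : P → P} (hS : Continuous S) {W : Set P} (hWc : IsClosed W)
    (hWi : MapsTo S W W)
    (hmin : ∀ V : Set P, IsClosed V → V.Nonempty → MapsTo S V V → V ⊆ W → V = W)
    {w w' : P} (hw : w ∈ W) (hw' : w' ∈ W) :
    w' ∈ closure (range fun n : ℕ => S^[n] w) := by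
  have hmem : ∀ n : ℕ, S^[n] w ∈ W := by
    intro n
    exact (hWi.iterate n) hw
  have h := hmin (closure (range fun n : ℕ => S^[n] w)) isClosed_closure
    ⟨w, subset_closure ⟨0, rfl⟩⟩ ?_ ?_
  · rw [h]; exact hw'
  · apply MapsTo.closure _ hS
    rintro _ ⟨n, rfl⟩
    exact ⟨n + 1, by simp only [Function.iterate_succ_apply']⟩
  · apply closure_minimal _ hWc
    rintro _ ⟨n, rfl⟩
    exact hmem n

/-- uniform return times in a minimal closed invariant set. -/
theorem bounded_gaps {S : P → P} (hS : Continuous S) {W : Set P} (hWc : IsClosed W)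
    (hWi : MapsTo S W W)
    (hmin : ∀ V : Set P, IsClosed V → V.Nonempty → MapsTo S V V → V ⊆ W → V = W)
    {w : P} (hw : w ∈ W) {O : Set P} (hO : IsOpen O) (hwO : w ∈ O) :
    ∃ N : ℕ, ∀ m : ℕ, ∃ n : ℕ, m ≤ n ∧ n ≤ m + N ∧ 1 ≤ n ∧ S^[n] w ∈ O := by
  have hcov : W ⊆ ⋃ n : ℕ, (S^[n]) ⁻¹' O := by
    intro v hv
    have h := mem_closure_orbit hS hWc hWi hmin hv hw
    rw [mem_closure_iff] at h
    obtain ⟨z, hz, ⟨n, rfl⟩⟩ := h O hO hwO
    exact mem_iUnion.2 ⟨n, hz⟩
  obtain ⟨t, ht⟩ := hWc.isCompact.elim_finite_subcover _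
    (fun n => hO.preimage (hS.iterate n)) hcov
  obtain ⟨N, hN⟩ : ∃ N : ℕ, ∀ n ∈ t, n ≤ N := ⟨t.sup id, fun n hn => Finset.le_sup (f := id) hn⟩
  refine ⟨N + 1, fun m => ?_⟩
  have h1 : S^[m + 1] w ∈ W := (hWi.iterate (m + 1)) hw
  have h2 := ht h1
  simp only [mem_iUnion, exists_prop] at h2
  obtain ⟨j, hj, hjO⟩ := h2
  refine ⟨j + (m + 1), by omega, by have := hN j hj; omega, by omega, ?_⟩
  rw [Function.iterate_add_apply]
  exact hjO

end compact

/-- Countably many uniformly recurrent points of a continuous self-map of a complete metric space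
can be moved inside their own orbit closures to a jointly uniformly recurrent sequence. -/
theorem core {X : Type u} [MetricSpace X] [CompleteSpace X] (f : X → X) (hf : Continuous f)
    (y : ℕ → X) (hy : ∀ i, URecPt f (y i)) :
    ∃ x : ℕ → X, (∀ i, y i ∈ closure (range fun n : ℕ => f^[n] (x i))) ∧
      (∀ i, x i ∈ closure (range fun n : ℕ => f^[n] (y i))) ∧
      ∀ U ∈ 𝓝 x, ∃ N : ℕ, ∀ m : ℕ, ∃ n : ℕ, m ≤ n ∧ n ≤ m + N ∧ 1 ≤ n ∧
        (fun i => f^[n] (x i)) ∈ U := by
  classical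
  obtain ⟨ι, hιdef⟩ : ∃ ι : X → StoneCech X, ι = stoneCechUnit := ⟨_, rfl⟩
  have hιe : IsEmbedding ι := by rw [hιdef]; exact isEmbedding_stoneCechUnit
  obtain ⟨b, hb, hbι⟩ : ∃ b : StoneCech X → StoneCech X, Continuous b ∧ ∀ x, b (ι x) = ι (f x) := by
    refine ⟨stoneCechExtend (continuous_stoneCechUnit.comp hf), continuous_stoneCechExtend _, ?_⟩
    intro x
    rw [hιdef, stoneCechExtend_stoneCechUnit]
    rfl
  have hbit : ∀ (n : ℕ) (x : X), b^[n] (ι x) = ι (f^[n] x) := by
    intro n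
    induction n with
    | zero => intro x; rfl
    | succ n ih => intro x; rw [Function.iterate_succ_apply, hbι, ih, Function.iterate_succ_apply]
  let C : ℕ → Set (StoneCech X) := fun i => closure (range fun n : ℕ => ι (f^[n] (y i)))
  have hCc : ∀ i, IsClosed (C i) := fun i => isClosed_closure
  have hCmaps : ∀ i, MapsTo b (C i) (C i) := by
    intro i
    apply MapsTo.closure _ hb
    rintro _ ⟨n, rfl⟩
    exact ⟨n + 1, by simp only [Function.iterate_succ_apply', hbι]⟩
  -- each `C i` is minimal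
  have lemA : ∀ i, ∀ c ∈ C i, ι (y i) ∈ closure (range fun n : ℕ => b^[n] c) := by
    intro i c hc
    rw [mem_closure_iff_nhds]
    intro O hO
    obtain ⟨F, hFn, hFc, hFO⟩ := exists_mem_nhds_isClosed_subset hO
    have hU : ι ⁻¹' F ∈ 𝓝 (y i) := hιe.continuous.continuousAt.preimage_mem_nhds hFn
    obtain ⟨N, hN⟩ := hy i _ hU
    have hsub : C i ⊆ ⋃ j ∈ Finset.range (N + 1), (b^[j]) ⁻¹' F := by
      apply closure_minimal
      · rintro _ ⟨m, rfl⟩
        obtain ⟨n, h1, h2, _, h4⟩ := hN m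
        simp only [mem_iUnion, Finset.mem_range, exists_prop]
        refine ⟨n - m, by omega, ?_⟩
        rw [mem_preimage, hbit, ← Function.iterate_add_apply]
        have : n - m + m = n := by omega
        rw [this]
        exact h4
      · apply isClosed_biUnion_finset
        intro j _
        exact hFc.preimage (hb.iterate j)
    have := hsub hc
    simp only [mem_iUnion, Finset.mem_range, exists_prop] at this
    obtain ⟨j, _, hj⟩ := this
    exact ⟨b^[j] c, hFO hj, ⟨j, rfl⟩⟩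
  -- the product system
  let S : (ℕ → StoneCech X) → (ℕ → StoneCech X) := fun w i => b (w i)
  have hS : Continuous S := by
    apply continuous_pi
    intro i
    exact hb.comp (continuous_apply i)
  have hSit : ∀ (n : ℕ) (w : ℕ → StoneCech X) (i : ℕ), (S^[n] w) i = b^[n] (w i) := by
    intro n
    induction n with
    | zero => intro w i; rfl
    | succ n ih => intro w i; rw [Function.iterate_succ_apply, ih, Function.iterate_succ_apply]
  obtain ⟨W, hWc, hWne, hWi, hWC, hmin⟩ := exists_minimal S (Set.pi univ C)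
    (isClosed_set_pi fun i _ => hCc i)
    ⟨fun i => ι (y i), fun i _ => subset_closure ⟨0, rfl⟩⟩
    (fun w hw i hi => hCmaps i (hw i hi))
  -- every coordinate projection of `W` contains `ι (y i)`
  have lemC : ∀ i, ∃ w ∈ W, w i = ι (y i) := by
    intro i
    obtain ⟨w0, hw0⟩ := hWne
    have h1 := lemA i (w0 i) (hWC hw0 i (mem_univ i))
    have hcl : IsClosed ((fun w : ℕ → StoneCech X => w i) '' W) :=
      (hWc.isCompact.image (continuous_apply i)).isClosed
    have h2 : closure (range fun n : ℕ => b^[n] (w0 i)) ⊆ (fun w : ℕ → StoneCech X => w i) '' W := by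
      apply closure_minimal _ hcl
      rintro _ ⟨n, rfl⟩
      exact ⟨S^[n] w0, (hWi.iterate n) hw0, hSit n w0 i⟩
    obtain ⟨w, hw, hwi⟩ := h2 h1
    exact ⟨w, hw, hwi⟩
  -- the open sets
  let G : ℕ → Set (StoneCech X) := fun k => {κ | ∃ V : Set (StoneCech X), IsOpen V ∧ κ ∈ V ∧
    ∀ a c : X, ι a ∈ V → ι c ∈ V → dist a c < 1 / ((k : ℝ) + 1)}
  have hGo : ∀ k, IsOpen (G k) := by
    intro k
    rw [isOpen_iff_forall_mem_open]
    rintro κ ⟨V, hV, hκ, hd⟩
    exact ⟨V, fun κ' h' => ⟨V, hV, h', hd⟩, hV, hκ⟩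
  have hGι : ∀ k x, ι x ∈ G k := by
    intro k x
    have hpos : (0 : ℝ) < 1 / ((k : ℝ) + 1) := by positivity
    have hball : Metric.ball x (1 / ((k : ℝ) + 1) / 2) ∈ 𝓝 x := Metric.ball_mem_nhds x (by positivity)
    rw [hιe.nhds_eq_comap, mem_comap] at hball
    obtain ⟨t, ht, hts⟩ := hball
    obtain ⟨V, hVt, hVo, hxV⟩ := mem_nhds_iff.1 ht
    refine ⟨V, hVo, hxV, ?_⟩
    intro a c ha hc
    have h1 : dist a x < 1 / ((k : ℝ) + 1) / 2 := hts (hVt ha)
    have h2 : dist c x < 1 / ((k : ℝ) + 1) / 2 := hts (hVt hc)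
    calc dist a c ≤ dist a x + dist c x := dist_triangle_right a c x
      _ < 1 / ((k : ℝ) + 1) := by linarith
  have hWcs : CompactSpace W := isCompact_iff_compactSpace.1 hWc.isCompact
  let O : ℕ × ℕ → Set W := fun q => {w | w.1 q.1 ∈ G q.2}
  have hOo : ∀ q, IsOpen (O q) := by
    intro q
    exact (hGo q.2).preimage ((continuous_apply q.1).comp continuous_subtype_val)
  have hOd : ∀ q, Dense (O q) := by
    rintro ⟨i, k⟩
    rw [dense_iff_inter_open]
    intro V hV hVne
    obtain ⟨V', hV', rfl⟩ := isOpen_induced_iff.1 hV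
    obtain ⟨v, hv⟩ := hVne
    obtain ⟨w, hw, hwi⟩ := lemC i
    have h := mem_closure_orbit hS hWc hWi hmin hw v.2
    rw [mem_closure_iff] at h
    obtain ⟨z, hz, ⟨n, rfl⟩⟩ := h V' hV' hv
    refine ⟨⟨S^[n] w, (hWi.iterate n) hw⟩, hz, ?_⟩
    show (S^[n] w) i ∈ G k
    rw [hSit, hwi, hbit]
    exact hGι k _
  have hWn : Nonempty W := hWne.to_subtype
  obtain ⟨w, hw⟩ := (dense_iInter_of_isOpen hOo hOd).nonempty
  have hwG : ∀ i k, w.1 i ∈ G k := by
    intro i k
    exact (mem_iInter.1 hw) (i, k)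
  -- each coordinate of `w` comes from `X`
  have lemE : ∀ κ : StoneCech X, (∀ k, κ ∈ G k) → ∃ x, ι x = κ := by
    intro κ hκ
    have hdense : DenseRange ι := by rw [hιdef]; exact denseRange_stoneCechUnit
    have hne : NeBot (comap ι (𝓝 κ)) := by
      apply comap_neBot
      intro t ht
      obtain ⟨s, hst, hso, hκs⟩ := mem_nhds_iff.1 ht
      obtain ⟨x, hx⟩ := hdense.exists_mem_open hso ⟨κ, hκs⟩
      exact ⟨x, hst hx⟩
    have hcau : Cauchy (comap ι (𝓝 κ)) := by
      rw [Metric.cauchy_iff]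
      refine ⟨hne, ?_⟩
      intro ε hε
      obtain ⟨k, hk⟩ := exists_nat_one_div_lt hε
      obtain ⟨V, hVo, hκV, hd⟩ := hκ k
      refine ⟨ι ⁻¹' V, preimage_mem_comap (hVo.mem_nhds hκV), ?_⟩
      intro a ha c hc
      exact (hd a c ha hc).trans hk
    obtain ⟨x, hx⟩ := CompleteSpace.complete hcau
    refine ⟨x, ?_⟩
    have h1 : Tendsto ι (comap ι (𝓝 κ)) (𝓝 κ) := tendsto_comap
    have h2 : Tendsto ι (comap ι (𝓝 κ)) (𝓝 (ι x)) := (hιe.continuous.tendsto x).mono_left hx
    exact tendsto_nhds_unique h2 h1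
  choose x hx using fun i => lemE (w.1 i) (hwG i)
  refine ⟨x, ?_, ?_, ?_⟩
  · intro i
    have h1 := lemA i (w.1 i) (hWC w.2 i (mem_univ i))
    rw [← hx i] at h1
    rw [hιe.toIsInducing.closure_eq_preimage_closure_image, mem_preimage]
    have h2 : ι '' (range fun n : ℕ => f^[n] (x i)) = range fun n : ℕ => b^[n] (ι (x i)) := by
      rw [← range_comp]
      congr 1
      funext n
      exact (hbit n (x i)).symm
    rw [h2]
    exact h1
  · intro i
    have h1 : ι (x i) ∈ C i := by rw [hx i]; exact hWC w.2 i (mem_univ i)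
    rw [hιe.toIsInducing.closure_eq_preimage_closure_image, mem_preimage, ← range_comp]
    exact h1
  · intro U hU
    let ιp : (ℕ → X) → (ℕ → StoneCech X) := fun z i => ι (z i)
    have hιp : IsInducing ιp := by
      have := IsInducing.piMap (fun _ : ℕ => hιe.toIsInducing)
      exact this
    rw [hιp.nhds_eq_comap, mem_comap] at hU
    obtain ⟨t, ht, hts⟩ := hU
    obtain ⟨V, hVt, hVo, hxV⟩ := mem_nhds_iff.1 ht
    have hxw : ιp x = w.1 := funext fun i => hx i
    rw [hxw] at hxV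
    obtain ⟨N, hN⟩ := bounded_gaps hS hWc hWi hmin w.2 hVo hxV
    refine ⟨N, fun m => ?_⟩
    obtain ⟨n, h1, h2, h3, h4⟩ := hN m
    refine ⟨n, h1, h2, h3, hts (hVt ?_)⟩
    have : ιp (fun i => f^[n] (x i)) = S^[n] w.1 := by
      funext i
      rw [hSit, ← hx i, hbit]
    rw [this]
    exact h4

end H909R3.MP3dc4
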